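import Mathlib
import Pool.Agent.X55.Rigid

/-!
Every automorphism of the tree of standard Young tableaux with at most `k` rows is the identity.
-/

namespace Pool.Agent.Results.MP_291af2_co.TrivialAutomorphisms

open Pool.Agent.X55.Rigid

/-- A partition with at most `k` parts: `lam 0 ≥ lam 1 ≥ ...` with `lam i = 0` for `i ≥ k`. -/
def IsPartition (k : ℕ) (lam : ℕ → ℕ) : Prop := Antitone lam ∧ ∀ i, k ≤ i → lam i = 0

/-- A standard Young tableau whose shape has at most `k` rows. It is given by the list of its
cells `(row, column)` (counted from `0`) in the order of their entries: the `m`-th cell of the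
list contains the entry `m`. The cells are distinct and form the diagram of a partition with at
most `k` parts, and entries increase along rows and down columns: a cell occurring later in the
list is neither to the left (same row) nor above (same column) of an earlier one. -/
@[ext] structure SYT (k : ℕ) where
  cells : List (ℕ × ℕ)
  nodup : cells.Nodup
  shape : ∃ lam, IsPartition k lam ∧ ∀ c : ℕ × ℕ, c ∈ cells ↔ c.2 < lam c.1
  incr : cells.Pairwise
    (fun c d => ¬ (d.1 = c.1 ∧ d.2 < c.2) ∧ ¬ (d.2 = c.2 ∧ d.1 < c.1))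

/-- `T` is obtained from `T'` by deleting the cell with the largest entry. -/
def IsParent {k : ℕ} (T T' : SYT k) : Prop := ∃ c, T'.cells = T.cells ++ [c]

/-- The tree of standard Young tableaux with at most `k` rows, as an unlabelled graph. -/
def tree (k : ℕ) : SimpleGraph (SYT k) where
  Adj T T' := IsParent T T' ∨ IsParent T' T
  symm := ⟨fun _ _ h => h.symm⟩
  loopless := ⟨by
    rintro T (⟨c, h⟩ | ⟨c, h⟩) <;>
    · have := congrArg List.length h
      simp at this⟩

/-! ### Shapes -/

section

variable {k : ℕ}

noncomputable def sh (T : SYT k) : ℕ → ℕ := T.shape.choose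

theorem sh_part (T : SYT k) : IsPartition k (sh T) := T.shape.choose_spec.1

theorem mem_iff (T : SYT k) (c : ℕ × ℕ) : c ∈ T.cells ↔ c.2 < sh T c.1 :=
  T.shape.choose_spec.2 c

/-- Moves in row `r`. -/
def Mv (r : ℕ) (T T' : SYT k) : Prop := ∃ j, T'.cells = T.cells ++ [(r, j)]

theorem isParent_iff (T T' : SYT k) : IsParent T T' ↔ ∃ r, Mv r T T' := by
  constructor
  · rintro ⟨⟨r, j⟩, h⟩
    exact ⟨r, j, h⟩
  · rintro ⟨r, j, h⟩
    exact ⟨(r, j), h⟩

theorem move_spec {r : ℕ} {T T' : SYT k} (h : Mv r T T') :
    T'.cells = T.cells ++ [(r, sh T r)] ∧ sh T' r = sh T r + 1 ∧ ∀ i, i ≠ r → sh T' i = sh T i := by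
  obtain ⟨j, h⟩ := h
  have hnot : (r, j) ∉ T.cells := by
    have := T'.nodup
    rw [h, List.nodup_append] at this
    intro hm
    exact this.2.2 _ hm _ (by simp) rfl
  rw [mem_iff] at hnot
  have hmem : ∀ c, c.2 < sh T' c.1 ↔ (c.2 < sh T c.1 ∨ c = (r, j)) := by
    intro c
    rw [← mem_iff, ← mem_iff, h]
    simp
  have hrow : ∀ x, x < sh T' r ↔ (x < sh T r ∨ x = j) := by
    intro x
    have := hmem (r, x)
    simpa using this
  have hj : j = sh T r := by
    simp only [not_lt] at hnot
    have h1 := (hrow j).2 (Or.inr rfl)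
    rcases Nat.eq_or_lt_of_le hnot with h2 | h2
    · exact h2.symm
    · have h3 := (hrow (sh T r)).1 (by omega)
      omega
  subst hj
  refine ⟨h, ?_, ?_⟩
  · have h1 := (hrow (sh T r)).2 (Or.inr rfl)
    by_contra hne
    have h2 := (hrow (sh T r + 1)).1 (by omega)
    omega
  · intro i hi
    have hrow' : ∀ x, x < sh T' i ↔ x < sh T i := by
      intro x
      have := hmem (i, x)
      simpa [hi] using this
    have h1 := hrow' (sh T i)
    have h2 := hrow' (sh T' i)
    omega

/-- Rows to which a cell can be added. -/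
def Add (k : ℕ) (lam : ℕ → ℕ) (r : ℕ) : Prop := r < k ∧ (r = 0 ∨ lam r < lam (r - 1))

theorem exists_move {r : ℕ} {T : SYT k} (h : Add k (sh T) r) : ∃ T', Mv r T T' := by
  obtain ⟨hrk, hr⟩ := h
  have hanti := (sh_part T).1
  refine ⟨⟨T.cells ++ [(r, sh T r)], ?_, ?_, ?_⟩, sh T r, rfl⟩
  · rw [List.nodup_append]
    refine ⟨T.nodup, by simp, ?_⟩
    rintro a ha b hb rfl
    rw [List.mem_singleton] at hb
    rw [hb, mem_iff] at ha
    exact lt_irrefl _ ha
  · refine ⟨Function.update (sh T) r (sh T r + 1), ⟨?_, ?_⟩, ?_⟩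
    · apply antitone_nat_of_succ_le
      intro n
      simp only [Function.update_apply]
      have h1 : sh T (n + 1) ≤ sh T n := hanti (Nat.le_succ n)
      by_cases h2 : n + 1 = r
      · rw [if_pos h2, if_neg (by omega)]
        rcases hr with h3 | h3
        · omega
        · rw [← h2] at h3 ⊢
          simpa using h3
      · rw [if_neg h2]
        split_ifs with h3
        · rw [← h3]; omega
        · exact h1
    · intro i hi
      rw [Function.update_apply, if_neg (by omega)]
      exact (sh_part T).2 i hi
    · rintro ⟨i, j⟩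
      rw [List.mem_append, List.mem_singleton, mem_iff]
      simp only [Function.update_apply, Prod.mk.injEq]
      split_ifs with h1
      · rw [h1]
        simp only [true_and]
        omega
      · simp [h1]
  · rw [List.pairwise_append]
    refine ⟨T.incr, by simp, ?_⟩
    rintro ⟨i, j⟩ hc d hd
    rw [List.mem_singleton] at hd
    subst hd
    rw [mem_iff] at hc
    simp only at hc ⊢
    refine ⟨?_, ?_⟩
    · rintro ⟨rfl, h2⟩
      omega
    · rintro ⟨h1, h2⟩
      have := hanti h2.le
      omega

theorem add_of_move {r : ℕ} {T T' : SYT k} (h : Mv r T T') : Add k (sh T) r := by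
  obtain ⟨h1, h2, h3⟩ := move_spec h
  have hanti := (sh_part T').1
  refine ⟨?_, ?_⟩
  · by_contra hlt
    have := (sh_part T').2 r (by omega)
    omega
  · by_cases hr : r = 0
    · exact Or.inl hr
    · right
      have h4 : sh T' r ≤ sh T' (r - 1) := hanti (Nat.sub_le r 1)
      rw [h3 (r - 1) (by omega)] at h4
      omega

/-- The number of moves in rows `> j` needed to make rows `j, ..., k-1` equal. -/
noncomputable def D (k j : ℕ) (T : SYT k) : ℕ :=
  ∑ i ∈ Finset.Ico j k, (sh T j - sh T i)

/-- After adding a cell to each of the rows `0, ..., j-1`, row `j` is addable. -/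
theorem bump (T : SYT k) (j : ℕ) (hj : j < k) : ∃ T1, Reach Mv j T T1 ∧ Add k (sh T1) j ∧
    ∀ i, j ≤ i → sh T1 i = sh T i := by
  induction j with
  | zero => exact ⟨T, Relation.ReflTransGen.refl, ⟨hj, Or.inl rfl⟩, fun i _ => rfl⟩
  | succ j ih =>
    obtain ⟨T1, h1, h2, h3⟩ := ih (by omega)
    obtain ⟨T2, h4⟩ := exists_move h2
    obtain ⟨h5, h6, h7⟩ := move_spec h4
    refine ⟨T2, ?_, ⟨hj, Or.inr ?_⟩, ?_⟩
    · exact Relation.ReflTransGen.tail (reach_mono (Nat.le_succ j) h1) ⟨j, Nat.lt_succ_self j, h4⟩
    · simp only [Nat.add_sub_cancel]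
      rw [h6, h7 (j + 1) (by omega)]
      have := (sh_part T1).1 (Nat.le_succ j)
      exact Nat.lt_succ_of_le this
    · intro i hi
      rw [h7 i (by omega), h3 i (by omega)]

theorem hyp (k : ℕ) : Hyp (Mv (k := k)) (D k) where
  hU := by
    intro r s T T' h1 h2
    have e1 := (move_spec h1).1
    have e2 := (move_spec h2).1
    rw [e1] at e2
    have := List.append_cancel_left e2
    simp at this
    exact this.1
  hG := by
    intro r T T' T'' h1 h2
    ext1
    rw [(move_spec h1).1, (move_spec h2).1]
  hA := by
    intro j r T T' hr hm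
    obtain ⟨-, -, h3⟩ := move_spec hm
    unfold D
    refine Finset.sum_congr rfl fun i hi => ?_
    rw [Finset.mem_Ico] at hi
    rw [h3 j (by omega), h3 i (by omega)]
  hB := by
    intro j T T' hm
    obtain ⟨-, h2, h3⟩ := move_spec hm
    unfold D
    refine Finset.sum_le_sum fun i hi => ?_
    rw [Finset.mem_Ico] at hi
    by_cases hij : i = j
    · rw [hij]; omega
    · rw [h3 i hij, h2]; omega
  hC := by
    intro j r T T' hr hm
    obtain ⟨-, h2, h3⟩ := move_spec hm
    have hadd := add_of_move hm
    have hmem : r ∈ Finset.Ico j k := Finset.mem_Ico.2 ⟨hr.le, hadd.1⟩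
    unfold D
    rw [← Finset.add_sum_erase _ _ hmem, ← Finset.add_sum_erase _ _ hmem]
    have e1 : ∑ i ∈ (Finset.Ico j k).erase r, (sh T' j - sh T' i) =
        ∑ i ∈ (Finset.Ico j k).erase r, (sh T j - sh T i) := by
      refine Finset.sum_congr rfl fun i hi => ?_
      rw [Finset.mem_erase] at hi
      rw [h3 j (by omega), h3 i hi.1]
    rw [e1, h2, h3 j (by omega)]
    have h4 : sh T r < sh T j := by
      rcases hadd.2 with h5 | h5
      · omega
      · exact h5.trans_le ((sh_part T).1 (by omega))
    omega
  hD := by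
    intro j T hne
    unfold D at hne
    obtain ⟨i, hi, hne⟩ := Finset.exists_ne_zero_of_sum_ne_zero hne
    rw [Finset.mem_Ico] at hi
    -- the first row that is shorter than row `j`
    have hex : ∃ i, j < i ∧ i < k ∧ sh T i < sh T j := ⟨i, by
      refine ⟨lt_of_le_of_ne hi.1 ?_, hi.2, by omega⟩
      rintro rfl
      simp at hne⟩
    classical
    obtain ⟨h1, h2, h3⟩ := Nat.find_spec hex
    set m := Nat.find hex with hm
    have h4 : sh T m < sh T (m - 1) := by
      by_cases h5 : m - 1 = j
      · rw [h5]; exact h3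
      · have h6 : ¬ (j < m - 1 ∧ m - 1 < k ∧ sh T (m - 1) < sh T j) :=
          Nat.find_min hex (by omega)
        have : ¬ sh T (m - 1) < sh T j := fun h => h6 ⟨by omega, by omega, h⟩
        omega
    obtain ⟨T', hT'⟩ := exists_move (T := T) (r := m) ⟨h2, Or.inr h4⟩
    exact ⟨m, T', h1, hT'⟩
  hE := by
    intro j T hne
    have hjk : j < k := by
      by_contra hlt
      apply hne
      unfold D
      rw [Finset.Ico_eq_empty (by omega)]
      rfl
    obtain ⟨T1, hr, hadd, hsame⟩ := bump T j hjk
    have hne1 : D k j T1 ≠ 0 := by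
      unfold D at hne ⊢
      intro h0
      apply hne
      rw [← h0]
      refine Finset.sum_congr rfl fun i hi => ?_
      rw [Finset.mem_Ico] at hi
      rw [hsame j le_rfl, hsame i hi.1]
    obtain ⟨T2, h2⟩ := exists_move hadd
    -- a second move, in a larger row
    obtain ⟨m, T3, hm, h3⟩ : ∃ r T', j < r ∧ Mv r T1 T' := by
      unfold D at hne1
      obtain ⟨i, hi, hne⟩ := Finset.exists_ne_zero_of_sum_ne_zero hne1
      rw [Finset.mem_Ico] at hi
      have hex : ∃ i, j < i ∧ i < k ∧ sh T1 i < sh T1 j := ⟨i, by
        refine ⟨lt_of_le_of_ne hi.1 ?_, hi.2, by omega⟩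
        rintro rfl
        simp at hne⟩
      classical
      obtain ⟨h1, h2, h3⟩ := Nat.find_spec hex
      set m := Nat.find hex with hm
      have h4 : sh T1 m < sh T1 (m - 1) := by
        by_cases h5 : m - 1 = j
        · rw [h5]; exact h3
        · have h6 : ¬ (j < m - 1 ∧ m - 1 < k ∧ sh T1 (m - 1) < sh T1 j) :=
            Nat.find_min hex (by omega)
          have : ¬ sh T1 (m - 1) < sh T1 j := fun h => h6 ⟨by omega, by omega, h⟩
          omega
      obtain ⟨T', hT'⟩ := exists_move (T := T1) (r := m) ⟨h2, Or.inr h4⟩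
      exact ⟨m, T', h1, hT'⟩
    refine ⟨T1, hr, j, m, T2, T3, le_rfl, hm.le, h2, h3, ?_⟩
    rintro rfl
    have e1 := (move_spec h2).1
    have e2 := (move_spec h3).1
    rw [e1] at e2
    have := List.append_cancel_left e2
    simp at this
    omega

/-- The empty tableau. -/
def root (k : ℕ) : SYT k :=
  ⟨[], List.nodup_nil, ⟨fun _ => 0, ⟨fun _ _ _ => le_rfl, fun _ _ => rfl⟩, by simp⟩,
    List.Pairwise.nil⟩

/-- Every nonempty tableau has a parent. -/
theorem exists_parent (T : SYT k) : T = root k ∨ ∃ r P, Mv r P T := by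
  rcases List.eq_nil_or_concat T.cells with h | ⟨l, ⟨r, j⟩, h⟩
  · left
    ext1
    exact h
  · right
    rw [List.concat_eq_append] at h
    have hanti := (sh_part T).1
    have hnd := T.nodup
    rw [h, List.nodup_append] at hnd
    have hinc := T.incr
    rw [h, List.pairwise_append] at hinc
    have hmem : ∀ c, c ∈ l ∨ c = (r, j) ↔ c.2 < sh T c.1 := by
      intro c
      rw [← mem_iff, h]
      simp
    have hj : j < sh T r := (hmem (r, j)).1 (Or.inr rfl)
    -- the last cell ends its row
    have hlast : sh T r = j + 1 := by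
      by_contra hne
      have h1 : (r, j + 1) ∈ l := by
        rcases (hmem (r, j + 1)).2 (by show j + 1 < sh T r; omega) with h2 | h2
        · exact h2
        · simp at h2
      have h2 := (hinc.2.2 _ h1 (r, j) (by simp)).1
      exact h2 ⟨rfl, Nat.lt_succ_self j⟩
    -- the row below is shorter
    have hbelow : sh T (r + 1) ≤ j := by
      by_contra hlt
      have h1 : (r + 1, j) ∈ l := by
        rcases (hmem (r + 1, j)).2 (by show j < sh T (r + 1); omega) with h2 | h2
        · exact h2
        · simp at h2
      have h2 := (hinc.2.2 _ h1 (r, j) (by simp)).2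
      exact h2 ⟨rfl, Nat.lt_succ_self r⟩
    refine ⟨r, ⟨l, hnd.1, ⟨Function.update (sh T) r j, ⟨?_, ?_⟩, ?_⟩, hinc.1⟩, j, h⟩
    · apply antitone_nat_of_succ_le
      intro n
      simp only [Function.update_apply]
      have h1 : sh T (n + 1) ≤ sh T n := hanti (Nat.le_succ n)
      split_ifs with h2 h3 h3
      · omega
      · rw [h2] at h1; omega
      · rw [h3]; exact hbelow
      · exact h1
    · intro i hi
      rw [Function.update_apply]
      split_ifs with h2
      · have := (sh_part T).2 i hi
        rw [h2] at this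
        omega
      · exact (sh_part T).2 i hi
    · rintro ⟨i, x⟩
      have h1 := hmem (i, x)
      simp only [Function.update_apply]
      by_cases h2 : i = r
      · subst h2
        simp only [if_true]
        constructor
        · intro h3
          have h4 : x < sh T i := h1.1 (Or.inl h3)
          have h5 : x ≠ j := by
            rintro rfl
            exact hnd.2.2 _ h3 _ (by simp) rfl
          omega
        · intro h3
          rcases h1.2 (by show x < sh T i; omega) with h4 | h4
          · exact h4
          · simp only [Prod.mk.injEq, true_and] at h4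
            omega
      · simp only [h2, if_false]
        rw [← h1]
        simp [h2]

/-- Every automorphism of the tree of standard Young tableaux with at most `k` rows is the
identity. -/
theorem result (k : ℕ) (hk : 1 ≤ k) (φ : tree k ≃g tree k) : φ = RelIso.refl _ := by
  have hF := exists_parent (k := k)
  have hroot : ∀ r P, ¬ Mv r P (root k) := by
    rintro r P ⟨j, h⟩
    have := congrArg List.length h
    simp [root] at this
  have hs : ∀ r (P T : SYT k), Mv r P T → T.cells.length = P.cells.length + 1 := by
    rintro r P T ⟨j, h⟩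
    rw [h]
    simp
  have hpar : ∀ r s (P Q T : SYT k), Mv r P T → Mv s Q T → P = Q := by
    rintro r s P Q T ⟨j, h⟩ ⟨j', h'⟩
    rw [h] at h'
    ext1
    exact (List.append_inj' h' rfl).1
  have hch : ∀ T : SYT k, ∃ r T', Mv r T T' := fun T =>
    ⟨0, exists_move ⟨by omega, Or.inl rfl⟩⟩
  have hzero : ∀ i, sh (root k) i = 0 := by
    intro i
    by_contra hne
    have := (mem_iff (root k) (i, 0)).2 (Nat.pos_of_ne_zero hne)
    simp [root] at this
  have hone : ∀ r s (T T' : SYT k), Mv r (root k) T → Mv s (root k) T' → T = T' := by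
    intro r s T T' h1 h2
    have key : ∀ r T, Mv r (root k) T → r = 0 := by
      intro r T h
      rcases (add_of_move h).2 with h3 | h3
      · exact h3
      · rw [hzero, hzero] at h3
        exact absurd h3 (lt_irrefl _)
    rw [key r T h1] at h1
    rw [key s T' h2] at h2
    exact (hyp k).hG 0 _ _ _ h1 h2
  have hadj : ∀ T T' : SYT k, ((∃ r, Mv r T T') ∨ ∃ r, Mv r T' T) ↔
      ((∃ r, Mv r (φ.toEquiv T) (φ.toEquiv T')) ∨ ∃ r, Mv r (φ.toEquiv T') (φ.toEquiv T)) := by
    intro T T'
    simp only [← isParent_iff]
    exact (φ.map_adj_iff (v := T) (w := T')).symm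
  have hchild := child_of_graph (root k) (fun T => T.cells.length) hF hroot hs hpar hch hone
    φ.toEquiv hadj
  have := eq_refl (hyp k) (root k) (fun T => T.cells.length) hF hroot hs φ.toEquiv hchild
  ext1 T
  have h2 := congrFun (congrArg DFunLike.coe this) T
  exact h2

end

end Pool.Agent.Results.MP_291af2_co.TrivialAutomorphisms
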